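import Mathlib

/-!
# Convergence in `L¹` of Poisson integrals
-/

set_option autoImplicit false

open MeasureTheory Filter
open scoped Topology ENNReal

noncomputable section

namespace Pool.Agent.Helper35.AC

/-- `π` times the Poisson integral of `ρ` -/
def Pr (ρ : ℝ → ℝ) (ε E : ℝ) : ℝ := ∫ t, ρ t * (ε / ((t - E) ^ 2 + ε ^ 2))

theorem Pr_eq (ρ : ℝ → ℝ) {ε : ℝ} (hε : 0 < ε) (E : ℝ) :
    Pr ρ ε E = ∫ s, ρ (E + ε * s) * (1 + s ^ 2)⁻¹ := by
  unfold Pr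
  rw [← integral_add_left_eq_self (fun t => ρ t * (ε / ((t - E) ^ 2 + ε ^ 2))) E]
  have h := Measure.integral_comp_mul_left
    (fun y => ρ (E + y) * (ε / ((E + y - E) ^ 2 + ε ^ 2))) ε
  have h2 : ∫ y, ρ (E + y) * (ε / ((E + y - E) ^ 2 + ε ^ 2)) =
      ε * ∫ s, ρ (E + ε * s) * (ε / ((E + ε * s - E) ^ 2 + ε ^ 2)) := by
    rw [h, abs_of_pos (inv_pos.2 hε), smul_eq_mul, ← mul_assoc, mul_inv_cancel₀ hε.ne', one_mul]
  rw [h2, ← integral_const_mul]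
  congr 1
  funext s
  have h3 : (E + ε * s - E) ^ 2 + ε ^ 2 = ε ^ 2 * (1 + s ^ 2) := by ring
  have h4 : (1 + s ^ 2) ≠ 0 := by positivity
  rw [h3]
  field_simp

theorem tendsto_W {ρ : ℝ → ℝ} (hρ : Integrable ρ) :
    Tendsto (fun t : ℝ => ∫⁻ E, ‖ρ (E + t) - ρ E‖ₑ) (𝓝 0) (𝓝 0) := by
  set f : Lp ℝ 1 (volume : Measure ℝ) := hρ.toL1 ρ with hf
  set g : C(ℝ, C(ℝ, ℝ)) := ContinuousMap.curry ⟨fun p : ℝ × ℝ => p.2 + p.1, by fun_prop⟩ with hg
  have hgt : ∀ t E, g t E = E + t := fun t E => rfl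
  have hgm : ∀ t, MeasurePreserving (g t) (volume : Measure ℝ) volume := fun t =>
    measurePreserving_add_right volume t
  have hc : Continuous fun t => Lp.compMeasurePreserving (g t) (hgm t) f :=
    continuous_const.compMeasurePreservingLp g.continuous hgm (by norm_num)
  have h1 := tendsto_iff_edist_tendsto_0.1 (hc.tendsto 0)
  refine h1.congr fun t => ?_
  rw [Lp.edist_def, eLpNorm_one_eq_lintegral_enorm]
  have ha : ∀ t, (Lp.compMeasurePreserving (g t) (hgm t) f : ℝ → ℝ) =ᵐ[volume]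
      fun E => ρ (E + t) := by
    intro t
    refine (Lp.coeFn_compMeasurePreserving f (hgm t)).trans ?_
    exact (hgm t).quasiMeasurePreserving.ae_eq_comp hρ.coeFn_toL1
  refine lintegral_congr_ae ?_
  filter_upwards [ha t, ha 0] with E h2 h3
  rw [Pi.sub_apply, h2, h3, add_zero]

theorem W_le {ρ : ℝ → ℝ} (hρ : Integrable ρ) (t : ℝ) :
    ∫⁻ E, ‖ρ (E + t) - ρ E‖ₑ ≤ 2 * ∫⁻ E, ‖ρ E‖ₑ := by
  calc ∫⁻ E, ‖ρ (E + t) - ρ E‖ₑ ≤ ∫⁻ E, (‖ρ (E + t)‖ₑ + ‖ρ E‖ₑ) :=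
        lintegral_mono fun E => enorm_sub_le
    _ = (∫⁻ E, ‖ρ (E + t)‖ₑ) + ∫⁻ E, ‖ρ E‖ₑ :=
        lintegral_add_right' _ hρ.aestronglyMeasurable.enorm
    _ = 2 * ∫⁻ E, ‖ρ E‖ₑ := by
        rw [lintegral_add_right_eq_self (fun E => ‖ρ E‖ₑ) t, two_mul]

theorem integrable_K : Integrable fun s : ℝ => (1 + s ^ 2)⁻¹ := integrable_inv_one_add_sq

theorem norm_Pr_sub_le {ρ : ℝ → ℝ} (hρ : Integrable ρ) {ε : ℝ} (hε : 0 < ε) (E : ℝ) :
    ‖Pr ρ ε E - Real.pi * ρ E‖ₑ ≤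
      ∫⁻ s, ‖ρ (E + ε * s) - ρ E‖ₑ * ENNReal.ofReal (1 + s ^ 2)⁻¹ := by
  have h1 : Integrable fun s : ℝ => ρ (E + ε * s) := by
    have := (hρ.comp_add_left E).comp_mul_left' hε.ne'
    exact this
  have h2 : Integrable fun s : ℝ => ρ (E + ε * s) * (1 + s ^ 2)⁻¹ := by
    refine h1.mul_bdd (c := 1) ?_ ?_
    · have : Continuous fun s : ℝ => (1 + s ^ 2)⁻¹ := by
        refine Continuous.inv₀ (by fun_prop) (fun s => by positivity)
      exact this.aestronglyMeasurable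
    · refine Eventually.of_forall fun s => ?_
      rw [Real.norm_eq_abs, abs_of_nonneg (by positivity)]
      exact inv_le_one_of_one_le₀ (by nlinarith [sq_nonneg s])
  have h3 : Real.pi * ρ E = ∫ s : ℝ, ρ E * (1 + s ^ 2)⁻¹ := by
    rw [integral_const_mul, integral_univ_inv_one_add_sq, mul_comm]
  rw [Pr_eq ρ hε, h3, ← integral_sub h2 (integrable_K.const_mul _)]
  refine (enorm_integral_le_lintegral_enorm _).trans (le_of_eq ?_)
  congr 1
  funext s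
  rw [← sub_mul, enorm_mul]
  congr 1
  rw [Real.enorm_eq_ofReal (by positivity)]

theorem poisson_L1_meas {ρ : ℝ → ℝ} (hρ : Integrable ρ) (hm : Measurable ρ) :
    Tendsto (fun ε : ℝ => ∫⁻ E, ‖Pr ρ ε E - Real.pi * ρ E‖ₑ) (𝓝[>] 0) (𝓝 0) := by
  have hmeas : Measurable fun p : ℝ × ℝ × ℝ =>
      ‖ρ (p.2.2 + p.1 * p.2.1) - ρ p.2.2‖ₑ * ENNReal.ofReal (1 + p.2.1 ^ 2)⁻¹ := by
    fun_prop
  have hWm : Measurable fun t : ℝ => ∫⁻ E, ‖ρ (E + t) - ρ E‖ₑ := by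
    have : Measurable fun p : ℝ × ℝ => ‖ρ (p.2 + p.1) - ρ p.2‖ₑ := by fun_prop
    exact this.lintegral_prod_right'
  have hlim : Tendsto (fun ε : ℝ => ∫⁻ s : ℝ, (∫⁻ E, ‖ρ (E + ε * s) - ρ E‖ₑ) *
      ENNReal.ofReal (1 + s ^ 2)⁻¹) (𝓝[>] 0) (𝓝 (∫⁻ _ : ℝ, 0)) := by
    refine tendsto_lintegral_filter_of_dominated_convergence
      (fun s => (2 * ∫⁻ E, ‖ρ E‖ₑ) * ENNReal.ofReal (1 + s ^ 2)⁻¹) ?_ ?_ ?_ ?_
    · refine Eventually.of_forall fun ε => ?_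
      exact (hWm.comp (measurable_const.mul measurable_id)).mul (by fun_prop)
    · refine Eventually.of_forall fun ε => Eventually.of_forall fun s => ?_
      exact mul_le_mul' (W_le hρ _) le_rfl
    · rw [lintegral_const_mul _ (by fun_prop)]
      refine ENNReal.mul_ne_top (ENNReal.mul_ne_top (by norm_num) ?_) ?_
      · exact hρ.2.ne
      · have := integrable_K.2
        rw [hasFiniteIntegral_iff_ofReal (Eventually.of_forall fun s => by positivity)] at this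
        exact this.ne
    · refine Eventually.of_forall fun s => ?_
      have h1 : Tendsto (fun ε : ℝ => ε * s) (𝓝[>] 0) (𝓝 0) := by
        have : Tendsto (fun ε : ℝ => ε * s) (𝓝 0) (𝓝 (0 * s)) :=
          (continuous_id.mul continuous_const).tendsto 0
        rw [zero_mul] at this
        exact this.mono_left nhdsWithin_le_nhds
      have h2 := (tendsto_W hρ).comp h1
      have h3 := ENNReal.Tendsto.mul_const (b := ENNReal.ofReal (1 + s ^ 2)⁻¹) h2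
        (Or.inr ENNReal.ofReal_ne_top)
      rw [zero_mul] at h3
      exact h3
  rw [lintegral_zero] at hlim
  refine tendsto_of_tendsto_of_tendsto_of_le_of_le' tendsto_const_nhds hlim
    (Eventually.of_forall fun _ => zero_le) ?_
  filter_upwards [self_mem_nhdsWithin] with ε hε
  calc ∫⁻ E, ‖Pr ρ ε E - Real.pi * ρ E‖ₑ
      ≤ ∫⁻ E, ∫⁻ s, ‖ρ (E + ε * s) - ρ E‖ₑ * ENNReal.ofReal (1 + s ^ 2)⁻¹ :=
        lintegral_mono fun E => norm_Pr_sub_le hρ hε E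
    _ = ∫⁻ s, ∫⁻ E, ‖ρ (E + ε * s) - ρ E‖ₑ * ENNReal.ofReal (1 + s ^ 2)⁻¹ := by
        refine lintegral_lintegral_swap ?_
        have : Measurable fun p : ℝ × ℝ =>
            ‖ρ (p.1 + ε * p.2) - ρ p.1‖ₑ * ENNReal.ofReal (1 + p.2 ^ 2)⁻¹ := by fun_prop
        exact this.aemeasurable
    _ = ∫⁻ s : ℝ, (∫⁻ E, ‖ρ (E + ε * s) - ρ E‖ₑ) * ENNReal.ofReal (1 + s ^ 2)⁻¹ := by
        refine lintegral_congr fun s => ?_
        rw [lintegral_mul_const]
        fun_prop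

theorem poisson_L1 {ρ : ℝ → ℝ} (hρ : Integrable ρ) :
    Tendsto (fun ε : ℝ => ∫⁻ E, ‖Pr ρ ε E - Real.pi * ρ E‖ₑ) (𝓝[>] 0) (𝓝 0) := by
  set σ : ℝ → ℝ := hρ.1.mk ρ with hσ
  have hae : ρ =ᵐ[volume] σ := hρ.1.ae_eq_mk
  have hσi : Integrable σ := hρ.congr hae
  have h := poisson_L1_meas hσi hρ.1.stronglyMeasurable_mk.measurable
  refine h.congr fun ε => ?_
  have hP : ∀ E, Pr σ ε E = Pr ρ ε E := by
    intro E
    unfold Pr
    refine integral_congr_ae ?_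
    filter_upwards [hae] with t ht
    rw [ht]
  refine lintegral_congr_ae ?_
  filter_upwards [hae] with E hE
  rw [hP, hE]

/-- the real version -/
theorem poisson_L1_real {ρ : ℝ → ℝ} (hρ : Integrable ρ) {e : ℕ → ℝ} (he : ∀ k, 0 < e k)
    (he0 : Tendsto e atTop (𝓝 0)) (hq : ∀ k, Integrable (Pr ρ (e k))) :
    Tendsto (fun k => ∫ E, |Pr ρ (e k) E - Real.pi * ρ E|) atTop (𝓝 0) := by
  have h1 : Tendsto e atTop (𝓝[>] 0) :=
    tendsto_nhdsWithin_iff.2 ⟨he0, Eventually.of_forall he⟩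
  have h2 := (poisson_L1 hρ).comp h1
  have h3 := (ENNReal.tendsto_toReal ENNReal.zero_ne_top).comp h2
  rw [ENNReal.toReal_zero] at h3
  refine h3.congr fun k => ?_
  have h4 : AEStronglyMeasurable (fun E => Pr ρ (e k) E - Real.pi * ρ E) volume :=
    (hq k).aestronglyMeasurable.sub (hρ.const_mul _).aestronglyMeasurable
  exact (integral_norm_eq_lintegral_enorm h4).symm

end Pool.Agent.Helper35.AC
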