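import Pool.Agent.Helper54_QE.Defs
import Pool.Agent.Helper35_QE.Poisson

/-!
# Module AC: vectors with absolutely continuous spectral measure
-/

set_option autoImplicit false
set_option linter.unusedSectionVars false

open scoped InnerProductSpace ComplexConjugate Topology ENNReal
open MeasureTheory Filter

noncomputable section

namespace Pool.Agent.Helper35.AC

open Pool.Agent.Anderson Pool.Agent.Helper54.Bal Pool.Agent.QE

/-! ## abstract limit lemmas -/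

theorem lim_diff {F G : ℕ → ℝ → ℂ} {h g : ℕ → ℝ → ℝ} {M : ℝ}
    (hF : ∀ k, Integrable (F k)) (hG : ∀ k, Integrable (G k))
    (hh : ∀ k, Integrable (h k)) (hg : ∀ k, Integrable (g k)) (hM : ∀ k, ∫ E, g k E ≤ M)
    (hh0 : Tendsto (fun k => ∫ E, h k E) atTop (𝓝 0))
    (hle : ∀ k E δ, 0 < δ → ‖F k E - G k E‖ ≤ δ⁻¹ * h k E + δ * g k E) :
    Tendsto (fun k => (∫ E, F k E) - ∫ E, G k E) atTop (𝓝 0) := by
  rw [Metric.tendsto_atTop]
  intro η hη
  set δ : ℝ := η / (2 * (|M| + 1)) with hδ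
  have hM0 : 0 < |M| + 1 := by positivity
  have hδ0 : 0 < δ := by positivity
  rw [Metric.tendsto_atTop] at hh0
  obtain ⟨N, hN⟩ := hh0 (δ * (η / 2)) (by positivity)
  refine ⟨N, fun k hk => ?_⟩
  have h1 := hN k hk
  rw [Real.dist_eq, sub_zero] at h1
  rw [dist_zero_right, ← integral_sub (hF k) (hG k)]
  have h2 : ‖∫ E, F k E - G k E‖ ≤ ∫ E, (δ⁻¹ * h k E + δ * g k E) :=
    norm_integral_le_of_norm_le (((hh k).const_mul _).add ((hg k).const_mul _))
      (Eventually.of_forall fun E => hle k E δ hδ0)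
  rw [integral_add ((hh k).const_mul _) ((hg k).const_mul _), integral_const_mul,
    integral_const_mul] at h2
  have h3 : δ⁻¹ * ∫ E, h k E < η / 2 := by
    rw [inv_mul_lt_iff₀ hδ0]
    exact (le_abs_self _).trans_lt h1
  have h4 : δ * ∫ E, g k E ≤ η / 2 := by
    calc δ * ∫ E, g k E ≤ δ * (|M| + 1) := by
          apply mul_le_mul_of_nonneg_left _ hδ0.le
          linarith [hM k, le_abs_self M]
      _ = η / 2 := by
          rw [hδ]; field_simp
  linarith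

theorem lim_mul {q : ℕ → ℝ → ℝ} {p : ℝ → ℝ} (hq : ∀ k, Integrable (q k)) (hp : Integrable p)
    (hL : Tendsto (fun k => ∫ E, |q k E - p E|) atTop (𝓝 0))
    {m : ℕ → ℝ → ℂ} {m0 : ℝ → ℂ} {B : ℝ} (hm : ∀ k, Measurable (m k)) (hm0 : Measurable m0)
    {r : ℕ → ℝ} (hr : Tendsto r atTop (𝓝 0))
    (hB : ∀ᶠ k in atTop, ∀ E, ‖m k E‖ ≤ B) (hB0 : ∃ B0, ∀ E, ‖m0 E‖ ≤ B0)
    (hmr : ∀ᶠ k in atTop, ∀ E, ‖m k E - m0 E‖ ≤ r k) :
    Tendsto (fun k => ∫ E, m k E * (q k E : ℂ)) atTop (𝓝 (∫ E, m0 E * (p E : ℂ))) := by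
  obtain ⟨B0, hB0⟩ := hB0
  rw [tendsto_iff_norm_sub_tendsto_zero]
  have hlim : Tendsto (fun k => B * (∫ E, |q k E - p E|) + r k * ∫ E, |p E|) atTop (𝓝 0) := by
    have := (hL.const_mul B).add (hr.mul_const (∫ E, |p E|))
    simpa using this
  refine squeeze_zero' (Eventually.of_forall fun k => norm_nonneg _) ?_ hlim
  filter_upwards [hB, hmr] with k hk1 hk2
  have hi1 : Integrable fun E => m k E * (q k E : ℂ) :=
    (hq k).ofReal.bdd_mul (hm k).aestronglyMeasurable (Eventually.of_forall hk1)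
  have hi2 : Integrable fun E => m0 E * (p E : ℂ) :=
    hp.ofReal.bdd_mul hm0.aestronglyMeasurable (Eventually.of_forall hB0)
  rw [← integral_sub hi1 hi2]
  have hd : Integrable fun E => |q k E - p E| := ((hq k).sub hp).abs
  have h2 : ‖∫ E, (m k E * (q k E : ℂ) - m0 E * (p E : ℂ))‖ ≤
      ∫ E, (B * |q k E - p E| + r k * |p E|) := by
    refine norm_integral_le_of_norm_le ((hd.const_mul _).add (hp.abs.const_mul _))
      (Eventually.of_forall fun E => ?_)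
    have e : m k E * (q k E : ℂ) - m0 E * (p E : ℂ) =
        m k E * ((q k E - p E : ℝ) : ℂ) + (m k E - m0 E) * (p E : ℂ) := by
      push_cast; ring
    rw [e]
    refine (norm_add_le _ _).trans ?_
    rw [norm_mul, norm_mul, Complex.norm_real, Complex.norm_real, Real.norm_eq_abs,
      Real.norm_eq_abs]
    exact add_le_add (mul_le_mul_of_nonneg_right (hk1 E) (abs_nonneg _))
      (mul_le_mul_of_nonneg_right (hk2 E) (abs_nonneg _))
  rwa [integral_add (hd.const_mul _) (hp.abs.const_mul _), integral_const_mul,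
    integral_const_mul] at h2

/-! ## the resolvent part -/

section res

variable {X : Type*} [NormedAddCommGroup X] [InnerProductSpace ℂ X] [CompleteSpace X]
  {D : ℂ → X →L[ℂ] X}

/-- `(A - c(E)) (H - E - iε)⁻¹ u` -/
def Ph (D : ℂ → X →L[ℂ] X) (A : X →L[ℂ] X) (c : ℝ → ℂ) (ε E : ℝ) (u : X) : X :=
  A (D (zz ε E) u) - c E • D (zz ε E) u

variable (A : X →L[ℂ] X) {c : ℝ → ℂ} {C : ℝ}

theorem norm_Ph_le (hC : ∀ E, ‖c E‖ ≤ C) (ε E : ℝ) (u : X) :
    ‖Ph D A c ε E u‖ ≤ (‖A‖ + C) * ‖D (zz ε E) u‖ := by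
  unfold Ph
  refine (norm_sub_le _ _).trans ?_
  rw [norm_smul, add_mul]
  exact add_le_add (A.le_opNorm _) (mul_le_mul_of_nonneg_right (hC E) (norm_nonneg _))

theorem Ph_add (ε E : ℝ) (u v : X) :
    Ph D A c ε E (u + v) = Ph D A c ε E u + Ph D A c ε E v := by
  unfold Ph
  rw [map_add, map_add, smul_add]
  abel

theorem Ph_smul (ε E : ℝ) (a : ℂ) (u : X) :
    Ph D A c ε E (a • u) = a • Ph D A c ε E u := by
  unfold Ph
  rw [map_smul, map_smul, smul_sub, smul_comm]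

theorem Ph_sum {ι : Type*} (ε E : ℝ) (F : Finset ι) (u : ι → X) :
    Ph D A c ε E (∑ i ∈ F, u i) = ∑ i ∈ F, Ph D A c ε E (u i) := by
  classical
  induction F using Finset.induction_on with
  | empty => simp [Ph]
  | insert a s ha ih => rw [Finset.sum_insert ha, Finset.sum_insert ha, Ph_add, ih]

theorem Ph_aesm (hD : IsRes D) (hc : Measurable c) {ε : ℝ} (hε : ε ≠ 0) (u : X) :
    AEStronglyMeasurable (fun E => Ph D A c ε E u) volume := by
  unfold Ph
  have h1 := hD.cont_line hε u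
  exact ((A.continuous.comp h1).aestronglyMeasurable).sub
    (hc.aestronglyMeasurable.smul h1.aestronglyMeasurable)

theorem tendsto_h (hD : IsRes D) (hc : Measurable c) (hC : ∀ E, ‖c E‖ ≤ C)
    {e : ℕ → ℝ} (he : ∀ k, 0 < e k) {ψ : X} {p : ℝ → ℝ} (hp : Integrable p)
    (hL : Tendsto (fun k => ∫ E, |e k * ‖D (zz (e k) E) ψ‖ ^ 2 - p E|) atTop (𝓝 0))
    (happ : ∀ η : ℝ, 0 < η → ∃ r : X, ‖r‖ ≤ η ∧ ∀ᵐ E : ℝ,
      Tendsto (fun k => Real.sqrt (e k) * ‖Ph D A c (e k) E (ψ - r)‖) atTop (𝓝 0)) :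
    Tendsto (fun k => ∫ E, e k * ‖Ph D A c (e k) E ψ‖ ^ 2) atTop (𝓝 0) := by
  have hC0 : 0 ≤ C := (norm_nonneg _).trans (hC 0)
  set K : ℝ := ‖A‖ + C with hK
  have hK0 : 0 ≤ K := by positivity
  have hqi : ∀ k u, Integrable fun E => e k * ‖D (zz (e k) E) u‖ ^ 2 := fun k u =>
    (hD.integrable_sq (he k) u).const_mul _
  have hhm : ∀ k u, AEStronglyMeasurable (fun E => e k * ‖Ph D A c (e k) E u‖ ^ 2) volume :=
    fun k u => ((Ph_aesm A hD hc (he k).ne' u).norm.pow 2).const_mul _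
  have hhb : ∀ k E u, e k * ‖Ph D A c (e k) E u‖ ^ 2 ≤ K ^ 2 * (e k * ‖D (zz (e k) E) u‖ ^ 2) := by
    intro k E u
    have h1 := norm_Ph_le (D := D) A hC (e k) E u
    have h2 : ‖Ph D A c (e k) E u‖ ^ 2 ≤ (K * ‖D (zz (e k) E) u‖) ^ 2 := by gcongr
    calc e k * ‖Ph D A c (e k) E u‖ ^ 2 ≤ e k * (K * ‖D (zz (e k) E) u‖) ^ 2 :=
          mul_le_mul_of_nonneg_left h2 (he k).le
      _ = _ := by ring
  have hhi : ∀ k u, Integrable fun E => e k * ‖Ph D A c (e k) E u‖ ^ 2 := by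
    intro k u
    refine ((hqi k u).const_mul (K ^ 2)).mono' (hhm k u) (Eventually.of_forall fun E => ?_)
    rw [Real.norm_eq_abs, abs_of_nonneg (mul_nonneg (he k).le (sq_nonneg _))]
    exact hhb k E u
  rw [Metric.tendsto_atTop]
  intro η hη
  -- choose the remainder
  obtain ⟨r, hr, hae⟩ := happ (Real.sqrt (η / (8 * (K ^ 2 + 1) * Real.pi)))
    (Real.sqrt_pos.2 (by positivity))
  have hr2 : 2 * K ^ 2 * (Real.pi * ‖r‖ ^ 2) ≤ η / 4 := by
    have h1 : ‖r‖ ^ 2 ≤ η / (8 * (K ^ 2 + 1) * Real.pi) := by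
      calc ‖r‖ ^ 2 ≤ (Real.sqrt (η / (8 * (K ^ 2 + 1) * Real.pi))) ^ 2 := by gcongr
        _ = _ := Real.sq_sqrt (by positivity)
    calc 2 * K ^ 2 * (Real.pi * ‖r‖ ^ 2)
        ≤ 2 * (K ^ 2 + 1) * (Real.pi * (η / (8 * (K ^ 2 + 1) * Real.pi))) := by
          gcongr
          linarith
      _ = η / 4 := by
          have : Real.pi ≠ 0 := Real.pi_ne_zero
          have : K ^ 2 + 1 ≠ 0 := by positivity
          field_simp
          ring
  set a : ℕ → ℝ → ℝ := fun k E => 2 * (Real.sqrt (e k) * ‖Ph D A c (e k) E (ψ - r)‖) ^ 2 with ha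
  set c0 : ℝ → ℝ := fun E => K ^ 2 * |p E| with hc0
  have hc0i : Integrable c0 := hp.abs.const_mul _
  have ham : ∀ k, AEStronglyMeasurable (a k) volume := fun k =>
    ((((Ph_aesm A hD hc (he k).ne' (ψ - r)).norm).const_mul (Real.sqrt (e k))).pow 2).const_mul 2
  have hmin_m : ∀ k, AEStronglyMeasurable (fun E => min (a k E) (c0 E)) volume := fun k =>
    (ham k).inf hc0i.aestronglyMeasurable
  have hmin_b : ∀ k E, ‖min (a k E) (c0 E)‖ ≤ c0 E := by
    intro k E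
    have h1 : 0 ≤ a k E := by rw [ha]; positivity
    have h2 : 0 ≤ c0 E := by rw [hc0]; positivity
    rw [Real.norm_eq_abs, abs_of_nonneg (le_min h1 h2)]
    exact min_le_right _ _
  have hmin_i : ∀ k, Integrable fun E => min (a k E) (c0 E) := fun k =>
    hc0i.mono' (hmin_m k) (Eventually.of_forall (hmin_b k))
  have hlim : Tendsto (fun k => ∫ E, min (a k E) (c0 E)) atTop (𝓝 (∫ _ : ℝ, (0:ℝ))) := by
    refine tendsto_integral_of_dominated_convergence c0 hmin_m hc0i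
      (fun k => Eventually.of_forall (hmin_b k)) ?_
    filter_upwards [hae] with E hE
    have h1 : Tendsto (fun k => a k E) atTop (𝓝 0) := by
      have := (hE.pow 2).const_mul 2
      simpa [ha] using this
    have h2 : Tendsto (fun k => min (a k E) (c0 E)) atTop (𝓝 (min 0 (c0 E))) :=
      h1.min tendsto_const_nhds
    have h3 : 0 ≤ c0 E := by rw [hc0]; positivity
    rwa [min_eq_left h3] at h2
  rw [integral_zero] at hlim
  rw [Metric.tendsto_atTop] at hlim hL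
  obtain ⟨N1, hN1⟩ := hlim (η / 4) (by positivity)
  obtain ⟨N2, hN2⟩ := hL (η / (4 * (K ^ 2 + 1))) (by positivity)
  refine ⟨max N1 N2, fun k hk => ?_⟩
  have h1 := hN1 k ((le_max_left _ _).trans hk)
  have h2 := hN2 k ((le_max_right _ _).trans hk)
  rw [Real.dist_eq, sub_zero] at h1 h2
  have hdi : Integrable fun E => |e k * ‖D (zz (e k) E) ψ‖ ^ 2 - p E| := ((hqi k ψ).sub hp).abs
  have hpt : ∀ E, e k * ‖Ph D A c (e k) E ψ‖ ^ 2 ≤ min (a k E) (c0 E) +
      2 * K ^ 2 * (e k * ‖D (zz (e k) E) r‖ ^ 2) +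
      K ^ 2 * |e k * ‖D (zz (e k) E) ψ‖ ^ 2 - p E| := by
    intro E
    have g1 := hhb k E ψ
    have g2 := hhb k E r
    have g3 : e k * ‖Ph D A c (e k) E ψ‖ ^ 2 ≤ a k E + 2 * (e k * ‖Ph D A c (e k) E r‖ ^ 2) := by
      have e1 : Ph D A c (e k) E ψ = Ph D A c (e k) E (ψ - r) + Ph D A c (e k) E r := by
        rw [← Ph_add, sub_add_cancel]
      have e2 : ‖Ph D A c (e k) E ψ‖ ≤ ‖Ph D A c (e k) E (ψ - r)‖ + ‖Ph D A c (e k) E r‖ := by
        rw [e1]; exact norm_add_le _ _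
      have e3 : ‖Ph D A c (e k) E ψ‖ ^ 2 ≤
          2 * ‖Ph D A c (e k) E (ψ - r)‖ ^ 2 + 2 * ‖Ph D A c (e k) E r‖ ^ 2 := by
        have := norm_nonneg (Ph D A c (e k) E ψ)
        nlinarith [sq_nonneg (‖Ph D A c (e k) E (ψ - r)‖ - ‖Ph D A c (e k) E r‖)]
      have e4 : a k E = 2 * (e k * ‖Ph D A c (e k) E (ψ - r)‖ ^ 2) := by
        rw [ha]
        simp only
        rw [mul_pow, Real.sq_sqrt (he k).le]
      rw [e4]
      have := mul_le_mul_of_nonneg_left e3 (he k).le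
      linarith
    have g4 : e k * ‖D (zz (e k) E) ψ‖ ^ 2 ≤ |p E| + |e k * ‖D (zz (e k) E) ψ‖ ^ 2 - p E| := by
      have := le_abs_self (e k * ‖D (zz (e k) E) ψ‖ ^ 2 - p E)
      have := le_abs_self (p E)
      linarith
    have g5 : K ^ 2 * (e k * ‖D (zz (e k) E) ψ‖ ^ 2) ≤
        c0 E + K ^ 2 * |e k * ‖D (zz (e k) E) ψ‖ ^ 2 - p E| := by
      rw [hc0]
      simp only
      rw [← mul_add]
      exact mul_le_mul_of_nonneg_left g4 (by positivity)
    have g6 : 0 ≤ K ^ 2 * |e k * ‖D (zz (e k) E) ψ‖ ^ 2 - p E| := by positivity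
    have g7 : 0 ≤ 2 * K ^ 2 * (e k * ‖D (zz (e k) E) r‖ ^ 2) := by
      have := (he k).le
      positivity
    rcases le_total (a k E) (c0 E) with h | h
    · rw [min_eq_left h]
      linarith
    · rw [min_eq_right h]
      linarith
  have hint : ∫ E, e k * ‖Ph D A c (e k) E ψ‖ ^ 2 ≤ (∫ E, min (a k E) (c0 E)) +
      2 * K ^ 2 * (Real.pi * ‖r‖ ^ 2) +
      K ^ 2 * ∫ E, |e k * ‖D (zz (e k) E) ψ‖ ^ 2 - p E| := by
    have h3 := integral_mono (hhi k ψ) (((hmin_i k).add ((hqi k r).const_mul (2 * K ^ 2))).add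
      (hdi.const_mul (K ^ 2))) hpt
    have h4 : ∫ E, (min (a k E) (c0 E) + 2 * K ^ 2 * (e k * ‖D (zz (e k) E) r‖ ^ 2) +
      K ^ 2 * |e k * ‖D (zz (e k) E) ψ‖ ^ 2 - p E|) = (∫ E, min (a k E) (c0 E)) +
      2 * K ^ 2 * (∫ E, e k * ‖D (zz (e k) E) r‖ ^ 2) +
      K ^ 2 * ∫ E, |e k * ‖D (zz (e k) E) ψ‖ ^ 2 - p E| := by
      have i12 : Integrable fun E => min (a k E) (c0 E) +
          2 * K ^ 2 * (e k * ‖D (zz (e k) E) r‖ ^ 2) :=
        (hmin_i k).add ((hqi k r).const_mul (2 * K ^ 2))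
      rw [integral_add i12 (hdi.const_mul (K ^ 2)),
        integral_add (hmin_i k) ((hqi k r).const_mul (2 * K ^ 2)),
        integral_const_mul (2 * K ^ 2), integral_const_mul (K ^ 2)]
    have h5 : ∫ E, e k * ‖D (zz (e k) E) r‖ ^ 2 = Real.pi * ‖r‖ ^ 2 := by
      rw [integral_const_mul, hD.integral_sq (he k)]
      have := (he k).ne'
      field_simp
    rw [← h5, ← h4]
    exact h3
  have h6 : K ^ 2 * ∫ E, |e k * ‖D (zz (e k) E) ψ‖ ^ 2 - p E| ≤ η / 4 := by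
    have h7 : ∫ E, |e k * ‖D (zz (e k) E) ψ‖ ^ 2 - p E| ≤ η / (4 * (K ^ 2 + 1)) :=
      (le_abs_self _).trans h2.le
    have h8 : 0 ≤ ∫ E, |e k * ‖D (zz (e k) E) ψ‖ ^ 2 - p E| :=
      integral_nonneg fun E => abs_nonneg _
    calc K ^ 2 * ∫ E, |e k * ‖D (zz (e k) E) ψ‖ ^ 2 - p E|
        ≤ (K ^ 2 + 1) * (η / (4 * (K ^ 2 + 1))) := by
          gcongr
          linarith
      _ = η / 4 := by field_simp
  have h9 : ∫ E, min (a k E) (c0 E) < η / 4 := (le_abs_self _).trans_lt h1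
  have h10 : 0 ≤ ∫ E, e k * ‖Ph D A c (e k) E ψ‖ ^ 2 :=
    integral_nonneg fun E => mul_nonneg (he k).le (sq_nonneg _)
  rw [Real.dist_eq, sub_zero, abs_of_nonneg h10]
  linarith

/-- the norm identity -/
theorem norm_identity (hD : IsRes D) (hcomm : ∀ z : ℂ, z.im ≠ 0 → ∀ f : X, A (D z f) = D z (A f))
    (hc : Measurable c) (hC : ∀ E, ‖c E‖ ≤ C)
    {e : ℕ → ℝ} (he : ∀ k, 0 < e k) {ψ : X} {p : ℝ → ℝ} (hp : Integrable p)
    (hL : Tendsto (fun k => ∫ E, |e k * ‖D (zz (e k) E) ψ‖ ^ 2 - p E|) atTop (𝓝 0))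
    (hh : Tendsto (fun k => ∫ E, e k * ‖Ph D A c (e k) E ψ‖ ^ 2) atTop (𝓝 0)) :
    ((Real.pi * ‖A ψ‖ ^ 2 : ℝ) : ℂ) = ∫ E, ((‖c E‖ ^ 2 : ℝ) : ℂ) * (p E : ℂ) := by
  have hC0 : 0 ≤ C := (norm_nonneg _).trans (hC 0)
  set K : ℝ := ‖A‖ + C with hK
  have hK0 : 0 ≤ K := by positivity
  have hqi : ∀ k u, Integrable fun E => e k * ‖D (zz (e k) E) u‖ ^ 2 := fun k u =>
    (hD.integrable_sq (he k) u).const_mul _
  have hqint : ∀ k u, ∫ E, e k * ‖D (zz (e k) E) u‖ ^ 2 = Real.pi * ‖u‖ ^ 2 := by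
    intro k u
    rw [integral_const_mul, hD.integral_sq (he k)]
    have := (he k).ne'
    field_simp
  have hPi : ∀ k, Integrable fun E => e k * ‖Ph D A c (e k) E ψ‖ ^ 2 := by
    intro k
    refine ((hqi k ψ).const_mul (K ^ 2)).mono'
      (((Ph_aesm A hD hc (he k).ne' ψ).norm.pow 2).const_mul _) (Eventually.of_forall fun E => ?_)
    rw [Real.norm_eq_abs, abs_of_nonneg (mul_nonneg (he k).le (sq_nonneg _))]
    have h1 := norm_Ph_le (D := D) A hC (e k) E ψ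
    have h2 : ‖Ph D A c (e k) E ψ‖ ^ 2 ≤ (K * ‖D (zz (e k) E) ψ‖) ^ 2 := by gcongr
    calc e k * ‖Ph D A c (e k) E ψ‖ ^ 2 ≤ e k * (K * ‖D (zz (e k) E) ψ‖) ^ 2 :=
          mul_le_mul_of_nonneg_left h2 (he k).le
      _ = _ := by ring
  set F : ℕ → ℝ → ℂ := fun k E => ((e k * ‖A (D (zz (e k) E) ψ)‖ ^ 2 : ℝ) : ℂ) with hF
  set G : ℕ → ℝ → ℂ := fun k E => ((‖c E‖ ^ 2 : ℝ) : ℂ) *
    ((e k * ‖D (zz (e k) E) ψ‖ ^ 2 : ℝ) : ℂ) with hG
  have hFe : ∀ k, F k = fun E => ((e k * ‖D (zz (e k) E) (A ψ)‖ ^ 2 : ℝ) : ℂ) := by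
    intro k
    funext E
    rw [hF]
    simp only
    rw [hcomm _ (by simpa using (he k).ne')]
  have hFi : ∀ k, Integrable (F k) := by
    intro k
    rw [hFe]
    exact (hqi k (A ψ)).ofReal
  have hFint : ∀ k, ∫ E, F k E = ((Real.pi * ‖A ψ‖ ^ 2 : ℝ) : ℂ) := by
    intro k
    rw [hFe]
    simp only
    rw [integral_complex_ofReal, hqint]
  have hcm : Measurable fun E => ((‖c E‖ ^ 2 : ℝ) : ℂ) :=
    Complex.measurable_ofReal.comp (hc.norm.pow_const 2)
  have hcb : ∀ E, ‖((‖c E‖ ^ 2 : ℝ) : ℂ)‖ ≤ C ^ 2 := by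
    intro E
    rw [Complex.norm_real, Real.norm_eq_abs, abs_of_nonneg (sq_nonneg _)]
    have := hC E
    gcongr
  have hGi : ∀ k, Integrable (G k) := fun k =>
    (hqi k ψ).ofReal.bdd_mul hcm.aestronglyMeasurable (Eventually.of_forall hcb)
  have h1 := lim_diff (M := 2 * K ^ 2 * (Real.pi * ‖ψ‖ ^ 2)) hFi hGi hPi
    (g := fun k E => 2 * K ^ 2 * (e k * ‖D (zz (e k) E) ψ‖ ^ 2))
    (fun k => (hqi k ψ).const_mul _)
    (fun k => by rw [integral_const_mul, hqint]) hh (by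
      intro k E δ hδ
      rw [hF, hG]
      simp only
      set u : X := D (zz (e k) E) ψ with hu
      have e1 : ((e k * ‖A u‖ ^ 2 : ℝ) : ℂ) - ((‖c E‖ ^ 2 : ℝ) : ℂ) * ((e k * ‖u‖ ^ 2 : ℝ) : ℂ) =
          ((e k * (‖A u‖ ^ 2 - ‖c E • u‖ ^ 2) : ℝ) : ℂ) := by
        rw [norm_smul]; push_cast; ring
      rw [e1, Complex.norm_real, Real.norm_eq_abs, abs_mul, abs_of_pos (he k)]
      have e2 : Ph D A c (e k) E ψ = A u - c E • u := rfl
      rw [e2]
      set a := ‖A u‖ with ha'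
      set b := ‖c E • u‖ with hb'
      have f1 : |a - b| ≤ ‖A u - c E • u‖ := abs_norm_sub_norm_le _ _
      have f2 : a ≤ K * ‖u‖ := by
        refine (A.le_opNorm u).trans ?_
        exact mul_le_mul_of_nonneg_right (by linarith) (norm_nonneg _)
      have f3 : b ≤ K * ‖u‖ := by
        rw [hb', norm_smul]
        exact mul_le_mul_of_nonneg_right (by linarith [hC E, norm_nonneg A]) (norm_nonneg _)
      have f4 : 0 ≤ a := norm_nonneg _
      have f5 : 0 ≤ b := norm_nonneg _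
      have f6 : |a ^ 2 - b ^ 2| ≤ δ⁻¹ * ‖A u - c E • u‖ ^ 2 + δ * (2 * K ^ 2 * ‖u‖ ^ 2) := by
        have g1 : |a ^ 2 - b ^ 2| = |a - b| * (a + b) := by
          rw [show a ^ 2 - b ^ 2 = (a - b) * (a + b) by ring, abs_mul,
            abs_of_nonneg (by positivity : 0 ≤ a + b)]
        rw [g1]
        set s := ‖A u - c E • u‖ with hs
        have hs0 : 0 ≤ s := norm_nonneg _
        have g2 : |a - b| * (a + b) ≤ s * (2 * (K * ‖u‖)) :=
          mul_le_mul f1 (by linarith) (by positivity) hs0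
        set v := K * ‖u‖ with hv
        have g3 : s * (2 * v) ≤ δ⁻¹ * s ^ 2 + δ * v ^ 2 := by
          have g4 : 0 ≤ δ⁻¹ * (s - δ * v) ^ 2 := by positivity
          have g5 : δ⁻¹ * (s - δ * v) ^ 2 = δ⁻¹ * s ^ 2 - 2 * s * v + δ * v ^ 2 := by
            field_simp
            ring
          linarith
        have g6 : v ^ 2 = K ^ 2 * ‖u‖ ^ 2 := by rw [hv]; ring
        have g7 : 0 ≤ δ * (K ^ 2 * ‖u‖ ^ 2) := by positivity
        rw [g6] at g3
        linarith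
      have f7 := mul_le_mul_of_nonneg_left f6 (he k).le
      calc e k * |a ^ 2 - b ^ 2| ≤ _ := f7
        _ = _ := by ring)
  have h2 : Tendsto (fun k => ∫ E, G k E) atTop (𝓝 (∫ E, ((‖c E‖ ^ 2 : ℝ) : ℂ) * (p E : ℂ))) := by
    refine lim_mul (fun k => hqi k ψ) hp hL (m := fun _ E => ((‖c E‖ ^ 2 : ℝ) : ℂ))
      (r := fun _ => 0) (B := C ^ 2) (fun _ => hcm) hcm tendsto_const_nhds
      (Eventually.of_forall fun _ => hcb) ⟨_, hcb⟩ (Eventually.of_forall fun _ E => by simp)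
  have h3 := h1.add h2
  have h4 : (fun k => ((∫ E, F k E) - ∫ E, G k E) + ∫ E, G k E) =
      fun _ => ((Real.pi * ‖A ψ‖ ^ 2 : ℝ) : ℂ) := by
    funext k
    rw [sub_add_cancel, hFint]
  rw [h4, zero_add] at h3
  exact tendsto_nhds_unique tendsto_const_nhds h3

theorem integral_shift_poisson {b : ℝ} (hb : 0 < b) (a : ℝ) :
    Integrable (fun E : ℝ => ((E - a) ^ 2 + b ^ 2)⁻¹) ∧
      ∫ E : ℝ, ((E - a) ^ 2 + b ^ 2)⁻¹ = Real.pi / b := by
  obtain ⟨h1, h2⟩ := integral_poisson hb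
  have e : (fun E : ℝ => ((E - a) ^ 2 + b ^ 2)⁻¹) = fun E => b⁻¹ * (b / ((E - a) ^ 2 + b ^ 2)) := by
    funext E
    have : (E - a) ^ 2 + b ^ 2 ≠ 0 := by positivity
    field_simp
  constructor
  · rw [e]
    exact (h1.comp_sub_right a).const_mul _
  · rw [e, integral_const_mul, integral_sub_right_eq_self (fun E : ℝ => b / (E ^ 2 + b ^ 2)) a, h2]
    field_simp

/-- the inner product identity -/
theorem inner_identity (hD : IsRes D)
    (hcomm : ∀ z : ℂ, z.im ≠ 0 → ∀ f : X, A (D z f) = D z (A f))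
    (hc : Measurable c) (hC : ∀ E, ‖c E‖ ≤ C)
    {e : ℕ → ℝ} (he : ∀ k, 0 < e k) (he0 : Tendsto e atTop (𝓝 0))
    {ψ : X} {p : ℝ → ℝ} (hp : Integrable p)
    (hL : Tendsto (fun k => ∫ E, |e k * ‖D (zz (e k) E) ψ‖ ^ 2 - p E|) atTop (𝓝 0))
    (hh : Tendsto (fun k => ∫ E, e k * ‖Ph D A c (e k) E ψ‖ ^ 2) atTop (𝓝 0))
    {w : ℂ} (hw : w.im ≠ 0) :
    (Real.pi : ℂ) * ⟪D w ψ, A ψ⟫_ℂ = ∫ E : ℝ, (c E / ((E : ℂ) - conj w)) * (p E : ℂ) := by
  have hC0 : 0 ≤ C := (norm_nonneg _).trans (hC 0)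
  set K : ℝ := ‖A‖ + C with hK
  have hK0 : 0 ≤ K := by positivity
  have hqi : ∀ k u, Integrable fun E => e k * ‖D (zz (e k) E) u‖ ^ 2 := fun k u =>
    (hD.integrable_sq (he k) u).const_mul _
  have hqint : ∀ k u, ∫ E, e k * ‖D (zz (e k) E) u‖ ^ 2 = Real.pi * ‖u‖ ^ 2 := by
    intro k u
    rw [integral_const_mul, hD.integral_sq (he k)]
    have := (he k).ne'
    field_simp
  have hPi : ∀ k, Integrable fun E => e k * ‖Ph D A c (e k) E ψ‖ ^ 2 := by
    intro k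
    refine ((hqi k ψ).const_mul (K ^ 2)).mono'
      (((Ph_aesm A hD hc (he k).ne' ψ).norm.pow 2).const_mul _) (Eventually.of_forall fun E => ?_)
    rw [Real.norm_eq_abs, abs_of_nonneg (mul_nonneg (he k).le (sq_nonneg _))]
    have h1 := norm_Ph_le (D := D) A hC (e k) E ψ
    have h2 : ‖Ph D A c (e k) E ψ‖ ^ 2 ≤ (K * ‖D (zz (e k) E) ψ‖) ^ 2 := by gcongr
    calc e k * ‖Ph D A c (e k) E ψ‖ ^ 2 ≤ e k * (K * ‖D (zz (e k) E) ψ‖) ^ 2 :=
          mul_le_mul_of_nonneg_left h2 (he k).le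
      _ = _ := by ring
  have hzk : ∀ k E, (zz (e k) E).im ≠ 0 := fun k E => by simpa using (he k).ne'
  set F : ℕ → ℝ → ℂ := fun k E => (e k : ℂ) *
    ⟪D (zz (e k) E) (D w ψ), A (D (zz (e k) E) ψ)⟫_ℂ with hF
  set G : ℕ → ℝ → ℂ := fun k E => (e k : ℂ) *
    ⟪D (zz (e k) E) (D w ψ), c E • D (zz (e k) E) ψ⟫_ℂ with hG
  have hFe : ∀ k, F k = fun E => (e k : ℂ) * ⟪D (zz (e k) E) (D w ψ), D (zz (e k) E) (A ψ)⟫_ℂ := by
    intro k
    funext E
    rw [hF]
    simp only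
    rw [hcomm _ (hzk k E)]
  have hFi : ∀ k, Integrable (F k) := by
    intro k
    rw [hFe]
    exact (hD.integrable_inner (he k) (D w ψ) (A ψ)).const_mul _
  have hFint : ∀ k, ∫ E, F k E = (Real.pi : ℂ) * ⟪D w ψ, A ψ⟫_ℂ := by
    intro k
    rw [hFe, integral_const_mul, hD.integral_inner (he k)]
    have : (e k : ℂ) ≠ 0 := by exact_mod_cast (he k).ne'
    push_cast
    field_simp
  have hGe : ∀ k, G k = fun E => c E * ((e k : ℂ) *
      ⟪D (zz (e k) E) (D w ψ), D (zz (e k) E) ψ⟫_ℂ) := by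
    intro k
    funext E
    rw [hG]
    simp only
    rw [inner_smul_right]
    ring
  have hGi : ∀ k, Integrable (G k) := by
    intro k
    rw [hGe]
    exact ((hD.integrable_inner (he k) (D w ψ) ψ).const_mul _).bdd_mul hc.aestronglyMeasurable
      (Eventually.of_forall hC)
  have h1 := lim_diff (M := Real.pi * ‖D w ψ‖ ^ 2) hFi hGi hPi
    (g := fun k E => e k * ‖D (zz (e k) E) (D w ψ)‖ ^ 2)
    (fun k => hqi k _) (fun k => by rw [hqint]) hh (by
      intro k E δ hδ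
      rw [hF, hG]
      simp only
      rw [← mul_sub, ← inner_sub_right, norm_mul, Complex.norm_real, Real.norm_eq_abs,
        abs_of_pos (he k)]
      have f1 := norm_inner_le_norm (𝕜 := ℂ) (D (zz (e k) E) (D w ψ))
        (A (D (zz (e k) E) ψ) - c E • D (zz (e k) E) ψ)
      have e2 : Ph D A c (e k) E ψ = A (D (zz (e k) E) ψ) - c E • D (zz (e k) E) ψ := rfl
      rw [← e2] at f1 ⊢
      set s := ‖Ph D A c (e k) E ψ‖ with hs
      set v := ‖D (zz (e k) E) (D w ψ)‖ with hv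
      have g3 : v * s ≤ δ⁻¹ * s ^ 2 + δ * v ^ 2 := by
        have g4 : 0 ≤ δ⁻¹ * (s - δ * v) ^ 2 := by positivity
        have g5 : δ⁻¹ * (s - δ * v) ^ 2 = δ⁻¹ * s ^ 2 - 2 * s * v + δ * v ^ 2 := by
          field_simp
          ring
        have : 0 ≤ v * s := by positivity
        linarith
      have f7 := mul_le_mul_of_nonneg_left (f1.trans g3) (he k).le
      calc _ ≤ _ := f7
        _ = _ := by ring)
  -- the limit of the second sequence
  set y : ℝ := |w.im| with hy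
  have hy0 : 0 < y := abs_pos.2 hw
  have hev : ∀ᶠ k in atTop, e k ≤ y / 2 := by
    have := he0.eventually (Iio_mem_nhds (show (0:ℝ) < y / 2 by positivity))
    filter_upwards [this] with k hk
    exact le_of_lt hk
  have hden : ∀ k, e k ≤ y / 2 → ∀ E, (E - w.re) ^ 2 + (y / 2) ^ 2 ≤ ‖zz (e k) E - w‖ ^ 2 := by
    intro k hk E
    rw [← Complex.normSq_eq_norm_sq, Complex.normSq_apply]
    simp only [Complex.sub_re, zz_re, Complex.sub_im, zz_im]
    have f1 : y / 2 ≤ |e k - w.im| := by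
      have := abs_sub_abs_le_abs_sub w.im (e k)
      rw [abs_of_pos (he k), abs_sub_comm] at this
      linarith
    have f2 : (y / 2) ^ 2 ≤ (e k - w.im) ^ 2 := by
      rw [← sq_abs (e k - w.im)]
      gcongr
    nlinarith
  have hnorm : ∀ k, e k ≤ y / 2 → ∀ E, y / 2 ≤ ‖zz (e k) E - w‖ := by
    intro k hk E
    have f1 := hden k hk E
    have f2 := norm_nonneg (zz (e k) E - w)
    nlinarith [sq_nonneg (E - w.re)]
  have hne : ∀ k, e k ≤ y / 2 → ∀ E, zz (e k) E - w ≠ 0 := by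
    intro k hk E h0
    have := hnorm k hk E
    rw [h0, norm_zero] at this
    linarith
  have hne' : ∀ k, e k ≤ y / 2 → ∀ E, conj (zz (e k) E - w) ≠ 0 := by
    intro k hk E h0
    exact hne k hk E ((map_eq_zero _).1 h0)
  have hne0 : ∀ E : ℝ, (E : ℂ) - conj w ≠ 0 := by
    intro E h0
    apply hw
    have := congrArg Complex.im h0
    simpa using this
  have hnorm0 : ∀ E : ℝ, y ≤ ‖(E : ℂ) - conj w‖ := by
    intro E
    have := Complex.abs_im_le_norm ((E : ℂ) - conj w)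
    simpa using this
  set m : ℕ → ℝ → ℂ := fun k E => c E / conj (zz (e k) E - w) with hm
  set m0 : ℝ → ℂ := fun E => c E / ((E : ℂ) - conj w) with hm0
  set s : ℕ → ℝ → ℂ := fun k E => m k E * ((e k : ℂ) * ⟪D w ψ, D (zz (e k) E) ψ⟫_ℂ) with hs
  have hzzc : ∀ k, Continuous (zz (e k)) := fun k => continuous_zz (e k)
  have hmm : ∀ k, Measurable (m k) := fun k =>
    hc.div ((Complex.continuous_conj.comp ((hzzc k).sub continuous_const)).measurable)
  have hm0m : Measurable m0 :=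
    hc.div ((Complex.continuous_ofReal.sub continuous_const).measurable)
  have hGsplit : ∀ k, e k ≤ y / 2 → ∀ E, G k E =
      m k E * ((e k * ‖D (zz (e k) E) ψ‖ ^ 2 : ℝ) : ℂ) - s k E := by
    intro k hk E
    rw [hGe, hs, hm]
    simp only
    set z := zz (e k) E with hz
    have i1 : D z ψ - D w ψ = (z - w) • D z (D w ψ) := hD.ident_apply (hzk k E) hw ψ
    have i2 : ⟪D z ψ, D z ψ⟫_ℂ - ⟪D w ψ, D z ψ⟫_ℂ = conj (z - w) * ⟪D z (D w ψ), D z ψ⟫_ℂ := by
      rw [← inner_sub_left, i1, inner_smul_left]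
    rw [inner_self_eq_norm_sq_to_K] at i2
    have i3 : ⟪D z (D w ψ), D z ψ⟫_ℂ = (((‖D z ψ‖ : ℝ) : ℂ) ^ 2 - ⟪D w ψ, D z ψ⟫_ℂ) /
        conj (z - w) := by
      rw [eq_div_iff (hne' k hk E), mul_comm, ← i2]; rfl
    rw [i3]
    push_cast
    ring
  -- bounds for `s`
  have hsb : ∀ k, e k ≤ y / 2 → ∀ E, ‖s k E‖ ≤ C * ‖D w ψ‖ * Real.sqrt (e k) *
      (e k * ‖D (zz (e k) E) ψ‖ ^ 2 + ((E - w.re) ^ 2 + (y / 2) ^ 2)⁻¹) := by
    intro k hk E
    rw [hs, hm]
    simp only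
    rw [norm_mul, norm_div, RCLike.norm_conj, norm_mul, Complex.norm_real, Real.norm_eq_abs,
      abs_of_pos (he k)]
    set n := ‖zz (e k) E - w‖ with hn
    have n0 : 0 < n := norm_pos_iff.2 (hne k hk E)
    have f1 := norm_inner_le_norm (𝕜 := ℂ) (D w ψ) (D (zz (e k) E) ψ)
    set v := ‖D (zz (e k) E) ψ‖ with hv
    have v0 : 0 ≤ v := norm_nonneg _
    set r := Real.sqrt (e k) with hr
    have r0 : 0 ≤ r := Real.sqrt_nonneg _
    have hr2 : e k = r * r := (Real.mul_self_sqrt (he k).le).symm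
    have f2 : (n ^ 2)⁻¹ ≤ ((E - w.re) ^ 2 + (y / 2) ^ 2)⁻¹ :=
      inv_anti₀ (by positivity) (hden k hk E)
    have f3 : r * v * n⁻¹ ≤ e k * v ^ 2 + (n ^ 2)⁻¹ := by
      have g1 : 0 ≤ (r * v - n⁻¹) ^ 2 := sq_nonneg _
      have g2 : (r * v - n⁻¹) ^ 2 = e k * v ^ 2 - 2 * (r * v * n⁻¹) + (n ^ 2)⁻¹ := by
        rw [hr2, ← inv_pow]; ring
      have g3 : 0 ≤ r * v * n⁻¹ := by positivity
      linarith
    calc ‖c E‖ / n * (e k * ‖⟪D w ψ, D (zz (e k) E) ψ⟫_ℂ‖)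
        ≤ C / n * (e k * (‖D w ψ‖ * v)) := by
          have := hC E
          have := (he k).le
          gcongr
      _ = C * ‖D w ψ‖ * r * (r * v * n⁻¹) := by
          rw [hr2]; field_simp
      _ ≤ C * ‖D w ψ‖ * r * (e k * v ^ 2 + (n ^ 2)⁻¹) := by gcongr
      _ ≤ _ := by gcongr
  obtain ⟨hsp1, hsp2⟩ := integral_shift_poisson (show 0 < y / 2 by positivity) w.re
  have hslim : Tendsto (fun k => ∫ E, s k E) atTop (𝓝 0) := by
    have hb : Tendsto (fun k => C * ‖D w ψ‖ * Real.sqrt (e k) *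
        (Real.pi * ‖ψ‖ ^ 2 + Real.pi / (y / 2))) atTop (𝓝 0) := by
      have h3 : Tendsto (fun k => Real.sqrt (e k)) atTop (𝓝 0) := by
        have := (Real.continuous_sqrt.tendsto 0).comp he0
        rwa [Real.sqrt_zero] at this
      have h4 := (h3.const_mul (C * ‖D w ψ‖)).mul_const (Real.pi * ‖ψ‖ ^ 2 + Real.pi / (y / 2))
      simpa using h4
    refine squeeze_zero_norm' ?_ hb
    filter_upwards [hev] with k hk
    refine (norm_integral_le_of_norm_le (((hqi k ψ).add hsp1).const_mul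
      (C * ‖D w ψ‖ * Real.sqrt (e k))) (Eventually.of_forall fun E => hsb k hk E)).trans ?_
    rw [integral_const_mul]
    have h5 : ∫ E, ((fun E => e k * ‖D (zz (e k) E) ψ‖ ^ 2) +
        (fun E => ((E - w.re) ^ 2 + (y / 2) ^ 2)⁻¹) : ℝ → ℝ) E =
        Real.pi * ‖ψ‖ ^ 2 + Real.pi / (y / 2) := by
      rw [integral_add' (hqi k ψ) hsp1, hqint, hsp2]
    rw [h5]
  have hsi : ∀ k, e k ≤ y / 2 → Integrable (s k) := by
    intro k hk
    refine (((hqi k ψ).add hsp1).const_mul (C * ‖D w ψ‖ * Real.sqrt (e k))).mono' ?_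
      (Eventually.of_forall fun E => hsb k hk E)
    refine (hmm k).aestronglyMeasurable.mul ?_
    exact ((continuous_const.inner (hD.cont_line (he k).ne' ψ)).aestronglyMeasurable).const_mul _
  have hmB : ∀ k, e k ≤ y / 2 → ∀ E, ‖m k E‖ ≤ C / (y / 2) := by
    intro k hk E
    rw [hm]
    simp only
    rw [norm_div, RCLike.norm_conj]
    have := hC E
    have := hnorm k hk E
    gcongr
  have h2 : Tendsto (fun k => ∫ E, m k E * ((e k * ‖D (zz (e k) E) ψ‖ ^ 2 : ℝ) : ℂ)) atTop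
      (𝓝 (∫ E, m0 E * (p E : ℂ))) := by
    refine lim_mul (fun k => hqi k ψ) hp hL (r := fun k => e k * (C * (2 / (y * y))))
      (B := C / (y / 2)) hmm hm0m ?_ ?_ ?_ ?_
    · have := he0.mul_const (C * (2 / (y * y)))
      simpa using this
    · filter_upwards [hev] with k hk
      exact hmB k hk
    · refine ⟨C / y, fun E => ?_⟩
      rw [hm0]
      simp only
      rw [norm_div]
      have := hC E
      have := hnorm0 E
      gcongr
    · filter_upwards [hev] with k hk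
      intro E
      rw [hm, hm0]
      simp only
      have e1 : conj (zz (e k) E - w) = ((E : ℂ) - conj w) - (e k : ℂ) * Complex.I := by
        unfold zz
        simp only [map_sub, map_add, map_mul, Complex.conj_ofReal, Complex.conj_I]
        ring
      have e2 : c E / conj (zz (e k) E - w) - c E / ((E : ℂ) - conj w) =
          c E * ((e k : ℂ) * Complex.I) / (conj (zz (e k) E - w) * ((E : ℂ) - conj w)) := by
        rw [div_sub_div _ _ (hne' k hk E) (hne0 E)]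
        congr 1
        rw [e1]
        ring
      rw [e2, norm_div, norm_mul, norm_mul, norm_mul, RCLike.norm_conj, Complex.norm_I, mul_one,
        Complex.norm_real, Real.norm_eq_abs, abs_of_pos (he k)]
      have f1 := hnorm k hk E
      have f2 := hnorm0 E
      have f3 := hC E
      have f4 := (he k).le
      calc ‖c E‖ * e k / (‖zz (e k) E - w‖ * ‖(E : ℂ) - conj w‖)
          ≤ C * e k / (y / 2 * y) := by gcongr
        _ = _ := by field_simp
  have h3 : Tendsto (fun k => ∫ E, G k E) atTop (𝓝 (∫ E, m0 E * (p E : ℂ))) := by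
    have h4 := h2.sub hslim
    rw [sub_zero] at h4
    refine h4.congr' ?_
    filter_upwards [hev] with k hk
    have hi1 : Integrable fun E => m k E * ((e k * ‖D (zz (e k) E) ψ‖ ^ 2 : ℝ) : ℂ) :=
      (hqi k ψ).ofReal.bdd_mul (hmm k).aestronglyMeasurable (Eventually.of_forall (hmB k hk))
    rw [← integral_sub hi1 (hsi k hk)]
    refine integral_congr_ae (Eventually.of_forall fun E => ?_)
    exact (hGsplit k hk E).symm
  have h5 := h1.add h3
  have h6 : (fun k => ((∫ E, F k E) - ∫ E, G k E) + ∫ E, G k E) =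
      fun _ => (Real.pi : ℂ) * ⟪D w ψ, A ψ⟫_ℂ := by
    funext k
    rw [sub_add_cancel, hFint]
  rw [h6, zero_add] at h5
  exact tendsto_nhds_unique tendsto_const_nhds h5

end res

/-! ## the Anderson model -/

section anderson

variable {d : ℕ}

theorem q_eq {V : Cfg d} {ρ : ℝ → ℝ} {ψ : L2 d} (h : IsACVector V ρ ψ) {ε : ℝ} (hε : 0 < ε)
    (E : ℝ) : ε * ‖G V (zz ε E) ψ‖ ^ 2 = Pr ρ ε E := by
  have hz : (zz ε E).im ≠ 0 := by simpa using hε.ne'
  have h1 := (isRes_G V).im_inner hz ψ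
  rw [zz_im] at h1
  rw [← h1, h.2 _ hz _ (fun x => G_eq hz ψ x)]
  have hne : ∀ t : ℝ, (t : ℂ) - zz ε E ≠ 0 := fun t => real_sub_ne hz t
  have hint : Integrable (fun t : ℝ => (ρ t : ℂ) / ((t : ℂ) - zz ε E)) := by
    have e : (fun t : ℝ => (ρ t : ℂ) / ((t : ℂ) - zz ε E)) =
        fun t : ℝ => (ρ t : ℂ) * ((t : ℂ) - zz ε E)⁻¹ := by
      funext t; rw [div_eq_mul_inv]
    rw [e]
    refine h.1.ofReal.mul_bdd (c := |(zz ε E).im|⁻¹) ?_ ?_
    · have : Continuous fun t : ℝ => ((t : ℂ) - zz ε E)⁻¹ :=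
        Continuous.inv₀ (by fun_prop) hne
      exact this.aestronglyMeasurable
    · exact Eventually.of_forall fun t => norm_inv_le hz t
  have h2 : (∫ t : ℝ, (ρ t : ℂ) / ((t : ℂ) - zz ε E)).im =
      ∫ t : ℝ, ((ρ t : ℂ) / ((t : ℂ) - zz ε E)).im := (integral_im hint).symm
  rw [h2]
  unfold Pr
  congr 1
  funext t
  rw [Complex.div_im, Complex.ofReal_im, Complex.ofReal_re, Complex.normSq_apply]
  simp only [Complex.sub_re, Complex.ofReal_re, zz_re, Complex.sub_im, Complex.ofReal_im, zz_im]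
  have h3 : (t - E) * (t - E) + (0 - ε) * (0 - ε) = (t - E) ^ 2 + ε ^ 2 := by ring
  rw [h3]
  ring

theorem approx {V : Cfg d} {A : Op d} {c : ℝ → ℂ} {e : ℕ → ℝ}
    (hae : ∀ x : Site d, ∀ᵐ E : ℝ, Tendsto (fun k => Real.sqrt (e k) *
      ‖A (G V (zz (e k) E) (del x)) - c E • G V (zz (e k) E) (del x)‖) atTop (𝓝 0))
    (ψ : L2 d) (η : ℝ) (hη : 0 < η) : ∃ r : L2 d, ‖r‖ ≤ η ∧ ∀ᵐ E : ℝ,
      Tendsto (fun k => Real.sqrt (e k) * ‖Ph (G V) A c (e k) E (ψ - r)‖) atTop (𝓝 0) := by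
  have h1 : HasSum (fun x => lp.single 2 x (ψ x)) ψ := lp.hasSum_single (by norm_num) ψ
  have h2 : ∀ x, lp.single 2 x (ψ x) = ψ x • (del x : L2 d) := by
    intro x
    unfold del
    rw [← lp.single_smul, smul_eq_mul, mul_one]
  simp only [h2] at h1
  have h3 := Metric.tendsto_nhds.1 h1 η hη
  obtain ⟨F, hF⟩ := h3.exists
  refine ⟨ψ - ∑ x ∈ F, ψ x • (del x : L2 d), ?_, ?_⟩
  · rw [dist_comm, dist_eq_norm] at hF
    exact hF.le
  · have h4 : ∀ᵐ E : ℝ, ∀ x ∈ F, Tendsto (fun k => Real.sqrt (e k) *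
        ‖A (G V (zz (e k) E) (del x)) - c E • G V (zz (e k) E) (del x)‖) atTop (𝓝 0) :=
      (ae_ball_iff F.countable_toSet).2 fun x _ => hae x
    filter_upwards [h4] with E hE
    rw [sub_sub_cancel]
    have h5 : Tendsto (fun k => ∑ x ∈ F, ‖ψ x‖ * (Real.sqrt (e k) *
        ‖A (G V (zz (e k) E) (del x)) - c E • G V (zz (e k) E) (del x)‖)) atTop (𝓝 0) := by
      have : Tendsto (fun k => ∑ x ∈ F, ‖ψ x‖ * (Real.sqrt (e k) *
        ‖A (G V (zz (e k) E) (del x)) - c E • G V (zz (e k) E) (del x)‖)) atTop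
        (𝓝 (∑ x ∈ F, ‖ψ x‖ * 0)) :=
        tendsto_finsetSum F fun x hx => (hE x hx).const_mul _
      simpa using this
    refine squeeze_zero (fun k => mul_nonneg (Real.sqrt_nonneg _) (norm_nonneg _)) ?_ h5
    intro k
    rw [Ph_sum]
    calc Real.sqrt (e k) * ‖∑ x ∈ F, Ph (G V) A c (e k) E (ψ x • (del x : L2 d))‖
        ≤ Real.sqrt (e k) * ∑ x ∈ F, ‖Ph (G V) A c (e k) E (ψ x • (del x : L2 d))‖ :=
          mul_le_mul_of_nonneg_left (norm_sum_le _ _) (Real.sqrt_nonneg _)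
      _ = ∑ x ∈ F, ‖ψ x‖ * (Real.sqrt (e k) *
          ‖A (G V (zz (e k) E) (del x)) - c E • G V (zz (e k) E) (del x)‖) := by
          rw [Finset.mul_sum]
          refine Finset.sum_congr rfl fun x _ => ?_
          rw [Ph_smul, norm_smul]
          unfold Ph
          ring

theorem ac : ACStatement := by
  intro d V A hcomm c hc C hC e he he0 hae ψ ρ hac
  have hD := isRes_G V
  have hq : ∀ k, Pr ρ (e k) = fun E => e k * ‖G V (zz (e k) E) ψ‖ ^ 2 := by
    intro k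
    funext E
    exact (q_eq hac (he k) E).symm
  have hqi : ∀ k, Integrable (Pr ρ (e k)) := by
    intro k
    rw [hq]
    exact (hD.integrable_sq (he k) ψ).const_mul _
  have hp : Integrable fun E => Real.pi * ρ E := hac.1.const_mul _
  have hL : Tendsto (fun k => ∫ E, |e k * ‖G V (zz (e k) E) ψ‖ ^ 2 - Real.pi * ρ E|) atTop
      (𝓝 0) := by
    have := poisson_L1_real hac.1 he he0 hqi
    simp only [hq] at this
    exact this
  have hh := tendsto_h A hD hc hC he hp hL (fun η hη => approx hae ψ η hη)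
  have hpi : (Real.pi : ℂ) ≠ 0 := by exact_mod_cast Real.pi_ne_zero
  constructor
  · intro z hz u hu
    rw [G_unique hz hu]
    have h1 := inner_identity A hD hcomm hc hC he he0 hp hL hh hz
    have h2 : ∫ E : ℝ, (c E / ((E : ℂ) - conj z)) * ((Real.pi * ρ E : ℝ) : ℂ) =
        (Real.pi : ℂ) * ∫ E : ℝ, c E * (ρ E : ℂ) / ((E : ℂ) - conj z) := by
      rw [← integral_const_mul]
      congr 1
      funext E
      push_cast
      ring
    rw [h2] at h1
    exact mul_left_cancel₀ hpi h1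
  · have h1 := norm_identity A hD hcomm hc hC he hp hL hh
    have h2 : ∫ E, ((‖c E‖ ^ 2 : ℝ) : ℂ) * ((Real.pi * ρ E : ℝ) : ℂ) =
        ((Real.pi * ∫ E, ‖c E‖ ^ 2 * ρ E : ℝ) : ℂ) := by
      rw [← integral_const_mul, ← integral_complex_ofReal]
      congr 1
      funext E
      push_cast
      ring
    rw [h2] at h1
    have h3 : Real.pi * ‖A ψ‖ ^ 2 = Real.pi * ∫ E, ‖c E‖ ^ 2 * ρ E := by exact_mod_cast h1
    exact mul_left_cancel₀ Real.pi_ne_zero h3

end anderson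

end Pool.Agent.Helper35.AC
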